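import Pool.Agent.Helper71.PY.Goals

set_option autoImplicit false

namespace Pool.Agent.Helper9.PY

open Pool.Agent.Helper71.PY Matrix

theorem pp : G_PP := by
  intro R _ _ K _ _ _ n u hu S A hA hS
  classical
  let ι : R →+* K := algebraMap R K
  have hι : Function.Injective ι := IsFractionRing.injective R K
  -- image of a vector
  let c : (Fin n → R) → (Fin n → K) := fun v i => ι (v i)
  have cadd : ∀ a b, c (a + b) = c a + c b := fun a b => by
    funext i; simp [c]
  have csm : ∀ (r : R) a, c (r • a) = ι r • c a := fun r a => by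
    funext i; simp [c]
  let P : Submodule R ((Fin n → R) × (Fin n → R)) :=
    { carrier := {p | A *ᵥ c p.1 = c p.2}
      add_mem' := by
        intro p q hp hq
        simp only [Set.mem_setOf_eq, Prod.fst_add, Prod.snd_add, cadd, mulVec_add] at *
        rw [hp, hq]
      zero_mem' := by
        have h0 : c 0 = 0 := by funext i; simp [c]
        simp only [Set.mem_setOf_eq, Prod.fst_zero, Prod.snd_zero, h0, mulVec_zero]
      smul_mem' := by
        intro r p hp
        simp only [Set.mem_setOf_eq, Prod.smul_fst, Prod.smul_snd, csm, mulVec_smul] at *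
        rw [hp] }
  have hmem : ∀ p, p ∈ P ↔ A *ᵥ c p.1 = c p.2 := fun p => Iff.rfl
  let D : Matrix (Fin n) (Fin n) K := Matrix.diagonal (fun i => ι (u i))
  have hS' : S.map ι = Aᵀ * D * A := hS
  -- value of the form
  have hval : ∀ v w, w ∈ P →
      ι (os (mf S) (mf (Matrix.diagonal fun i => - u i)) v w)
        = (A *ᵥ c v.1 - c v.2) ⬝ᵥ (D *ᵥ (A *ᵥ c w.1)) := by
    intro v w hw
    rw [hmem] at hw
    have hdot : ∀ a b : Fin n → R, ι (a ⬝ᵥ b) = c a ⬝ᵥ c b := by
      intro a b
      simp [c, dotProduct, map_sum]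
    have hmv : ∀ (M : Matrix (Fin n) (Fin n) R) (b : Fin n → R),
        c (M *ᵥ b) = (M.map ι) *ᵥ c b := by
      intro M b
      funext i
      simp [c, mulVec, dotProduct, map_sum]
    have hD : (Matrix.diagonal fun i => - u i).map ι = - D := by
      ext i j
      by_cases h : i = j
      · subst h; simp [D]
      · simp [D, h]
    rw [os_apply, mf_apply, mf_apply, map_add, hdot, hdot, hmv, hmv, hS', hD, sub_dotProduct,
      neg_mulVec, dotProduct_neg, hw]
    rw [← mulVec_mulVec, ← mulVec_mulVec, dotProduct_mulVec, vecMul_transpose, hw]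
    ring
  refine ⟨P, fun v => ⟨fun hv w hw => ?_, fun hv => ?_⟩⟩
  · apply hι
    rw [hval v w hw, (hmem v).1 hv, sub_self, zero_dotProduct, map_zero]
  · rw [hmem]
    have key : ∀ v' : Fin n → K, (A *ᵥ c v.1 - c v.2) ⬝ᵥ (D *ᵥ (A *ᵥ v')) = 0 := by
      intro v'
      obtain ⟨r, hr⟩ := IsLocalization.exist_integer_multiples_of_finset (nonZeroDivisors R)
        (Finset.univ.image v' ∪ Finset.univ.image (A *ᵥ v'))
      have h1 : ∀ i, ∃ t : R, ι t = ι (r : R) * v' i := by
        intro i
        obtain ⟨t, ht⟩ := hr (v' i) (by simp)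
        exact ⟨t, by rw [Algebra.smul_def] at ht; exact ht⟩
      have h2 : ∀ i, ∃ t : R, ι t = ι (r : R) * (A *ᵥ v') i := by
        intro i
        obtain ⟨t, ht⟩ := hr ((A *ᵥ v') i) (by simp)
        exact ⟨t, by rw [Algebra.smul_def] at ht; exact ht⟩
      choose f hf using h1
      choose g hg using h2
      have cf : c f = ι (r : R) • v' := by funext i; simp [c, hf]
      have cg : c g = ι (r : R) • (A *ᵥ v') := by funext i; simp [c, hg]
      have hw : (f, g) ∈ P := by
        rw [hmem]
        simp only [cf, cg, mulVec_smul]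
      have h3 := hval v (f, g) hw
      rw [hv (f, g) hw, map_zero] at h3
      simp only [cf, mulVec_smul, dotProduct_smul, smul_eq_mul] at h3
      have hr0 : ι (r : R) ≠ 0 := by
        intro h
        exact nonZeroDivisors.ne_zero r.2 (hι (by rw [h, map_zero]))
      rcases mul_eq_zero.1 h3.symm with h | h
      · exact absurd h hr0
      · exact h
    have hAu : IsUnit A.det := isUnit_iff_ne_zero.2 hA
    rw [← sub_eq_zero]
    funext i
    have hui : ι (u i) ≠ 0 := ((hu i).map ι).ne_zero
    have h4 := key (A⁻¹ *ᵥ Pi.single i (ι (u i))⁻¹)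
    rw [mulVec_mulVec (Pi.single i (ι (u i))⁻¹) A A⁻¹, Matrix.mul_nonsing_inv _ hAu, one_mulVec] at h4
    have h5 : D *ᵥ Pi.single i (ι (u i))⁻¹ = Pi.single i 1 := by
      funext j
      rw [mulVec_diagonal]
      by_cases h : j = i
      · subst h; simp [mul_inv_cancel₀ hui]
      · simp [h]
    rw [h5, dotProduct_single, mul_one] at h4
    simpa using h4

end Pool.Agent.Helper9.PY
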